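import Mathlib

/-!
# Goals for MP_d34459_al (frozen statement S03163, weight 1)

Coarse kernels of irrational homomorphisms from `F₂`: no map `Ψ : FreeGroup K → K` which is the
identity on letters is a quasi-homomorphism for the cancellation norm.

## Overview of the proof
Put `u = a^m b^n ∈ K` (`m = ⌊nβ⌋`, `n` huge) and `W_k = Ψ((of u)^k)`, so `W_1 = a^m b^n` and
`|W_{j+k}⁻¹ W_j W_k|_× ≤ D` for all `j k`, and `φ(W_k) ∈ [0,1)`.
Fix `i` (large, depending on `D, β` only); we only use `W_k` for `k ≤ K := 4D(2i+1)`; then `n → ∞`.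
1. Write `W_k = val L_k` with `L_k` an alternating syllable word with nonzero exponents.
   `Ω = inv L_{j+k} ++ L_j ++ L_k` has a *noncrossing partition* of its syllables into blocks
   (each block: syllables of one generator), with total `cost = ∑ |sum of block| ≤ D`  (`S_SHORT`).
   All but boundedly many blocks are `[]` or `[x,-x]`  (`S_EXCESS`, `S_SPECIAL`).
2. Simultaneous Dirichlet approximation gives an odd integer labelling `ρ` of the exponents of one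
   generator `g` such that *all* `g`-blocks have label sum `0`, and `ρ(ν)=q ≥ 1` (`S_LABELS`),
   `ν` being the exponent of `g` in `W_1`.
3. `hgt ρ g L ∈ ℤ[T,T⁻¹]` (here `ℤ →₀ ℤ`): sum over the syllables `x` of the other generator of
   `x · T^{sum of the labels before it}`.  Then `‖e_{j+k} - e_j - T^{jq} e_k‖₁ ≤ D`
   (`S_HGTNC`, `S_HGTS`).
4. Module lemma (`S_MODULE`): this forces `|σ(e_i) - iE| ≤ 16D³` for an integer `E`.
5. `S_MAIN`: exponent sums of `W_i` are within `16 D³` of `i ℤ`.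
6. `S_FINAL`: as `i|−E_a + βE_b| ≤ 1 + 16D³(1+β)` and `|E_b - n| ≤ D + 16D³`, two values of `n`
   give a bounded `h ≥ 1` with `‖hβ‖ ≤ C/i`; `i → ∞` contradicts irrationality.
-/

set_option autoImplicit false

namespace Pool.Agent.CK

/-! ## Syllable words and noncrossing partitions -/

/-- value in the free group of a syllable word: `(g,x)` stands for `(of g)^x`. -/
def val (L : List (Fin 2 × ℤ)) : FreeGroup (Fin 2) :=
  (L.map (fun p => FreeGroup.of p.1 ^ p.2)).prod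

/-- formal inverse of a syllable word -/
def inv (L : List (Fin 2 × ℤ)) : List (Fin 2 × ℤ) :=
  (L.map (fun p => (p.1, -p.2))).reverse

/-- the block `K` of exponents, as a word in the generator `g` -/
def bl (g : Fin 2) (K : List ℤ) : List (Fin 2 × ℤ) := K.map (fun x => (g, x))

/-- Noncrossing partitions of syllable words: `NC L B` says that `L` can be built from the empty
word by successively inserting consecutive blocks `bl g K` (the list `B` records the blocks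
`(g,K)`; `K = []` is allowed). -/
inductive NC : List (Fin 2 × ℤ) → List (Fin 2 × List ℤ) → Prop
  | nil : NC [] []
  | ins (g : Fin 2) (L₁ : List (Fin 2 × ℤ)) (K : List ℤ) (L₂ : List (Fin 2 × ℤ))
      (B : List (Fin 2 × List ℤ)) :
      NC (L₁ ++ L₂) B → NC (L₁ ++ bl g K ++ L₂) ((g, K) :: B)

/-- total cost of a list of blocks: sum of the absolute values of the block sums -/
def cost (B : List (Fin 2 × List ℤ)) : ℕ := (B.map (fun b => b.2.sum.natAbs)).sum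

/-- `P c L`: the word `L` has a noncrossing partition of cost at most `c`. -/
def P (c : ℕ) (L : List (Fin 2 × ℤ)) : Prop := ∃ B, NC L B ∧ cost B ≤ c

/-- `w` is a product of at most `N` conjugates of letters (the cancellation norm is `≤ N`). -/
def Short (N : ℕ) (w : FreeGroup (Fin 2)) : Prop :=
  ∃ L : List (FreeGroup (Fin 2)), L.length ≤ N ∧
    (∀ x ∈ L, ∃ g : FreeGroup (Fin 2), ∃ i : Fin 2,
      x = g * FreeGroup.of i * g⁻¹ ∨ x = g * (FreeGroup.of i)⁻¹ * g⁻¹) ∧ L.prod = w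

/-- number of adjacent pairs of syllables with the same generator -/
def adj : List (Fin 2 × ℤ) → ℕ
  | [] => 0
  | [_] => 0
  | p :: p' :: L => (if p.1 = p'.1 then 1 else 0) + adj (p' :: L)

/-- exponent sum of the generator `g` -/
def ex (g : Fin 2) (w : FreeGroup (Fin 2)) : ℤ :=
  Multiplicative.toAdd
    (FreeGroup.lift (fun h : Fin 2 => Multiplicative.ofAdd (if h = g then (1 : ℤ) else 0)) w)

/-- **S_NCOPS** (operations on noncrossing partitions).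
Paper proof.
(1) *Replacement*.  Induction on the derivation of `NC (A ++ (g,y) :: C) B`.  `nil` is impossible.
Case `ins g' L₁ K L₂ B₀` with `L₁ ++ bl g' K ++ L₂ = A ++ (g,y) :: C`: use
`List.append_eq_append_iff` twice to locate the displayed syllable.
 * It lies in `L₁`, i.e. `L₁ = A ++ (g,y) :: C₁`, `C = C₁ ++ bl g' K ++ L₂`: apply the induction
   hypothesis to `L₁ ++ L₂ = A ++ (g,y) :: (C₁ ++ L₂)` and then insert `bl g' K` at the same place.
 * It lies in `L₂`: same.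
 * It lies in the block: `g' = g`, `K = K₁ ++ y :: K₂`, `A = L₁ ++ bl g K₁`, `C = bl g K₂ ++ L₂`:
   use the block `K₁ ++ Z ++ K₂` instead of `K`; its sum differs from that of `K` by `Z.sum - y`.
(2) *Merging*.  Induction on the derivation again, with the word `A ++ (g,x) :: (g,y) :: C`.
Case `ins g' L₁ K L₂ B₀`; where do the two adjacent displayed syllables lie?
 * both in `L₁` or both in `L₂`: induction hypothesis, then insert `bl g' K` again;
 * both in the block: `K = K₁ ++ x :: y :: K₂` becomes `K₁ ++ (x+y) :: K₂`, same sum;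
 * `(g,x)` is the last syllable of `L₁ = A ++ [(g,x)]` and `(g,y)` is the first of the block,
   `K = y :: K₂`, `g' = g`, `C = bl g K₂ ++ L₂`: apply (1) to
   `NC (L₁ ++ L₂) B₀ = NC (A ++ (g,x) :: L₂) B₀` with `Z = (x+y) :: K₂`; cost increases by at most
   `|y + K₂.sum| = |K.sum|`, and `cost ((g,K)::B₀) = |K.sum| + cost B₀`;
 * `(g,x)` is the last syllable of the block, `K = K₁ ++ [x]`, and `L₂ = (g,y) :: C`: apply (1) to
   `NC (L₁ ++ (g,y) :: C) B₀` with `Z = K₁ ++ [x+y]`;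
 * `K = []`, `L₁ = A ++ [(g,x)]`, `L₂ = (g,y) :: C`: induction hypothesis
   (drop the empty block, or insert it again).
(3) *Nested insertion*.  Induction on the derivation of `NC M B'`; case `ins g L₁ K L₂`: the
induction hypothesis is about `A ++ (L₁ ++ L₂) ++ C`, insert `bl g K` between `A ++ L₁` and
`L₂ ++ C`. -/
def S_NCOPS : Prop :=
  (∀ (A C : List (Fin 2 × ℤ)) (g : Fin 2) (y : ℤ) (B : List (Fin 2 × List ℤ)),
    NC (A ++ (g, y) :: C) B → ∀ Z : List ℤ,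
      ∃ B', NC (A ++ bl g Z ++ C) B' ∧ cost B' ≤ cost B + (Z.sum - y).natAbs) ∧
  (∀ (A C : List (Fin 2 × ℤ)) (g : Fin 2) (x y : ℤ) (B : List (Fin 2 × List ℤ)),
    NC (A ++ (g, x) :: (g, y) :: C) B →
      ∃ B', NC (A ++ (g, x + y) :: C) B' ∧ cost B' ≤ cost B) ∧
  (∀ (A C M : List (Fin 2 × ℤ)) (B B' : List (Fin 2 × List ℤ)),
    NC (A ++ C) B → NC M B' → NC (A ++ M ++ C) (B' ++ B))

/-- **S_INVAR** (the best cost of a noncrossing partition depends only on the value).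
Allowed hypothesis: `(h : S_NCOPS)`.
Paper proof.  On `FreeMonoid (Fin 2 × ℤ)` (i.e. lists) put `M ≈ M'` iff
`∀ A C c, P c (A ++ M ++ C) ↔ P c (A ++ M' ++ C)`.  This is a congruence (`Con`); let `Q` be the
quotient monoid and `π` the projection.  We have
 (a) `[(g,0)] ≈ []`: `→` replace (part (1) of `S_NCOPS`) `(g,0)` by `Z = []`, cost increase `0`;
     `←` insert the block `(g,[0])` of cost `0`.
 (b) `[(g,x),(g,y)] ≈ [(g,x+y)]`: `→` merging, part (2); `←` replacement with `Z = [x,y]`.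
So `x ↦ π [(g,x)]` is a monoid hom `Multiplicative ℤ →* Q`, its values are units, and the map
`F : FreeGroup (Fin 2) →* Qˣ`, `of g ↦ π [(g,1)]`, satisfies `F (of g ^ x) = π [(g,x)]`, hence
`F (val L) = π L` for all `L`.  So `val L = val L'` gives `π L = π L'`, i.e. `L ≈ L'`, and
`A = C = []` gives the claim. (Instead of quotients one may argue by hand.) -/
def S_INVAR : Prop :=
  ∀ (L L' : List (Fin 2 × ℤ)), val L = val L' → ∀ c, P c L → P c L'

/-- **S_SHORT** (short elements have cheap noncrossing partitions, for *every* syllable word).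
Allowed hypotheses: `(h1 : S_NCOPS) (h2 : S_INVAR)`.
Paper proof. `NC M B` implies that `∃ B'`, `NC (w ++ M ++ inv w) B'` with `cost B' = cost B`:
induction on `w`; for `w = (g,x) :: w'` start from `NC (w' ++ M ++ inv w') B₁`, and insert it
(part (3) of `S_NCOPS`) into the middle of the word `[(g,x)] ++ [(g,-x)]`, which is the single block
`(g,[x,-x])` of cost `0`.  In particular the word `w ++ [(i,±1)] ++ inv w` has a partition of cost
`1`; its value is `val w * (of i)^{±1} * (val w)⁻¹`.  Every element of the free group is `val w`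
for some `w` (`FreeGroup.induction_on`, or from `FreeGroup.toWord`).  Concatenating
(part (3) with `A = []`) a product of at most `N` conjugates of letters is the value of a word
`L'` with `P N L'`.  By `S_INVAR`, `P N L` for every `L` with the same value. -/
def S_SHORT : Prop :=
  ∀ (N : ℕ) (L : List (Fin 2 × ℤ)), Short N (val L) → P N L

/-- **S_EXCESS**.
Paper proof.  First: `NC [] B` implies that all blocks are `(g,[])` (the total length of the
blocks equals the length of the word: induction).  Now induction on the derivation; `nil` is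
excluded. Case `ins g L₁ K L₂ B₀`, `k = K.length`, `M₀ = L₁ ++ L₂`.
 * `k = 0`: the word is `M₀`, the new block contributes `0` to both sides; induction hypothesis.
 * `k ≥ 1`, `M₀ = []`: all blocks of `B₀` are empty, `adj (bl g K) = k - 1`; the claim is
   `(k-2) + 1 ≤ [k=1] + (k-1)` with natural subtraction: true.
 * `k ≥ 1`, `M₀ ≠ []`: `adj (L₁ ++ bl g K ++ L₂) + 2 ≥ adj (L₁ ++ L₂) + k`
   (only the junction `L₁|L₂` can be lost, it counts at most `1`, and the `k-1` adjacent pairs in the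
   block are gained).  With the induction hypothesis it is enough that
   `(k-2) + 2 ≤ [k=1] + k` with natural subtraction: true.
Useful: `adj (A ++ B) = adj A + adj B + (0 or 1)`, with `1` iff both nonempty and the last generator
of `A` equals the first generator of `B`. -/
def S_EXCESS : Prop :=
  ∀ (L : List (Fin 2 × ℤ)) (B : List (Fin 2 × List ℤ)), NC L B → L ≠ [] →
    (B.map (fun b => b.2.length - 2)).sum + 1 ≤
      (B.filter (fun b => b.2.length = 1)).length + adj L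

/-- **S_SPECIAL** (few special values).  Allowed hypothesis: `(h : S_EXCESS)`.
Paper proof.  (0) Every entry `x` of a block `(g,K) ∈ B` gives a syllable `(g,x)` of `L`
(induction on `NC`), so it is nonzero.  Also `b.2.sum.natAbs ≤ cost B` for `b ∈ B`.
If `L = []` all blocks are empty.  Otherwise `S_EXCESS`: a block of length `1` has nonzero sum so
their number is `≤ cost B ≤ D`, hence `∑ (len - 2) ≤ D + 2 - 1 = D + 1` (natural subtraction).
In particular each block has length `≤ D + 3`.  Call a block special if it is not `[]` and not of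
the form `[x,-x]`.  A special block has nonzero sum or has length `≥ 3` (length 1: nonzero sum as
the entry is nonzero; length 2 with zero sum is `[x,-x]`); the number of blocks with nonzero sum is
`≤ cost B ≤ D`, and the number of blocks of length `≥ 3` is `≤ ∑ (len - 2) ≤ D + 1`.
So there are at most `2D+1` special blocks, each with at most `D+3` entries: let `V` be the finset
of their entries. -/
def S_SPECIAL : Prop :=
  ∀ (D : ℕ) (L : List (Fin 2 × ℤ)) (B : List (Fin 2 × List ℤ)), NC L B → cost B ≤ D →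
    adj L ≤ 2 → (∀ p ∈ L, p.2 ≠ 0) →
    ∃ V : Finset ℤ, V.card ≤ (2 * D + 1) * (D + 3) ∧
      ∀ b ∈ B, b.2 = [] ∨ (∃ x, b.2 = [x, -x]) ∨
        (b.2.length ≤ D + 3 ∧ b.2.sum.natAbs ≤ D ∧ ∀ x ∈ b.2, x ∈ V)

/-- **S_WORDS** (words).
Paper proof.  (1)-(3) direct (`val` of the inverse by induction; `adj` of the reverse by induction
using the formula for `adj (A ++ B)`).  (4) Every element of `FreeGroup (Fin 2)` is the value of an
alternating word (`adj = 0`) with nonzero exponents: induction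
(`FreeGroup.induction_on`-style, on a list of letters): given such a word `L` and a letter
`(g,±1)`, put it in front: if `L` is empty or starts with the other generator, `(g,±1) :: L` works;
if `L = (g,x) :: L'` replace it by `(g,x±1) :: L'` if `x ± 1 ≠ 0`, and by `L'` if `x ± 1 = 0`.
(5) `ex g (val L)` is the sum of the exponents of `g` in `L`. (6) additivity: `ex` is a hom. (7) a
product of at most `N` conjugates of letters has exponent sums bounded by `N`. -/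
def S_WORDS : Prop :=
  (∀ L L' : List (Fin 2 × ℤ), val (L ++ L') = val L * val L') ∧
  (∀ L : List (Fin 2 × ℤ), val (inv L) = (val L)⁻¹) ∧
  (∀ L₁ L₂ L₃ : List (Fin 2 × ℤ), adj L₁ = 0 → adj L₂ = 0 → adj L₃ = 0 →
    adj (inv L₁ ++ L₂ ++ L₃) ≤ 2) ∧
  (∀ w : FreeGroup (Fin 2), ∃ L : List (Fin 2 × ℤ), val L = w ∧ adj L = 0 ∧ ∀ p ∈ L, p.2 ≠ 0) ∧
  (∀ (g : Fin 2) (L : List (Fin 2 × ℤ)),
    ex g (val L) = (L.map (fun p => if p.1 = g then p.2 else 0)).sum) ∧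
  (∀ (g : Fin 2) (v w : FreeGroup (Fin 2)), ex g (v * w) = ex g v + ex g w ∧
    ex g v⁻¹ = - ex g v) ∧
  (∀ (g : Fin 2) (N : ℕ) (w : FreeGroup (Fin 2)), Short N w → (ex g w).natAbs ≤ N)

/-! ## Labels -/

/-- **S_DIRICHLET** (simultaneous Dirichlet approximation).
Paper proof.  Pigeonhole: the points `k ↦ (x ↦ ⌊Q * fract (k * θ x)⌋)`, `0 ≤ k ≤ Q^card V`, take
at most `Q^card V` values (functions `V → Fin Q`), so two indices `k < k'` have the same value; then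
`q = k' - k` has `q θ x` within `1/Q` of the integer `⌊k' θ x⌋ - ⌊k θ x⌋`. -/
def S_DIRICHLET : Prop :=
  ∀ (V : Finset ℤ) (θ : ℤ → ℝ) (Q : ℕ), 1 ≤ Q →
    ∃ q : ℕ, 1 ≤ q ∧ q ≤ Q ^ V.card ∧ ∀ x ∈ V, |(q : ℝ) * θ x - round ((q : ℝ) * θ x)| ≤ 1 / Q

/-- **S_LABELS**.  Allowed hypothesis: `(h : S_DIRICHLET)`.
Paper proof.  `Q := 2(D+3)+1`, `θ x = |x|/ν`, get `1 ≤ q ≤ Q^card V ≤ Q^T`.  Define
`ρ x := sign x * round (q |x| / ν)`; it is odd, and `ρ ν = round q = q`.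
For `x ∈ V`: `|ρ x - q x / ν| ≤ 1/Q`.  So for `K` as in the statement
`|(K.map ρ).sum - q K.sum/ν| ≤ (D+3)/Q < 1/2` and `|q K.sum/ν| ≤ q D/ν < 1/2` since
`ν > 2 D Q^T ≥ 2 D q` (if `D = 0` this term is zero; note `ν > 0`).  So the integer
`(K.map ρ).sum` has absolute value `< 1`, it is `0`. -/
def S_LABELS : Prop :=
  ∀ (D T : ℕ) (ν : ℤ), 2 * (D : ℤ) * (2 * ((D : ℤ) + 3) + 1) ^ T < ν → ∀ V : Finset ℤ, V.card ≤ T →
    ∃ (q : ℤ) (ρ : ℤ → ℤ), 1 ≤ q ∧ (∀ x, ρ (-x) = - ρ x) ∧ ρ ν = q ∧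
      ∀ K : List ℤ, (∀ x ∈ K, x ∈ V) → K.length ≤ D + 3 → K.sum.natAbs ≤ D →
        (K.map ρ).sum = 0

/-! ## Laurent polynomials as finitely supported functions `ℤ →₀ ℤ` -/

/-- multiplication by `T^s` -/
noncomputable def sh (s : ℤ) : (ℤ →₀ ℤ) →+ (ℤ →₀ ℤ) :=
  Finsupp.mapDomain.addMonoidHom (fun z : ℤ => z + s)

/-- the `ℓ¹` norm -/
noncomputable def nrm (f : ℤ →₀ ℤ) : ℕ := f.sum (fun _ x => x.natAbs)

/-- augmentation (sum of the coefficients) -/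
noncomputable def sig (f : ℤ →₀ ℤ) : ℤ := f.sum (fun _ x => x)

/-- first moment -/
noncomputable def mu (f : ℤ →₀ ℤ) : ℤ := f.sum (fun z x => z * x)

/-- `[R]_{T^p} f = (1 + T^p + ⋯ + T^{(R-1)p}) f` -/
noncomputable def gs (R : ℕ) (p : ℤ) (f : ℤ →₀ ℤ) : ℤ →₀ ℤ :=
  ∑ r ∈ Finset.range R, sh (r * p) f

/-- **S_FS** (basic calculus).  Paper proof: direct.  (`sh s f z = f (z - s)`, everything is additive;
`nrm` is subadditive and shift invariant; `sig` is shift invariant; `mu (sh s f) = mu f + s sig f`;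
`|sig f| ≤ nrm f`.) -/
def S_FS : Prop :=
  (∀ (s z : ℤ) (f : ℤ →₀ ℤ), sh s f z = f (z - s)) ∧
  (∀ (f : ℤ →₀ ℤ), sh 0 f = f) ∧
  (∀ (s t : ℤ) (f : ℤ →₀ ℤ), sh s (sh t f) = sh (s + t) f) ∧
  (∀ (s : ℤ) (f : ℤ →₀ ℤ), nrm (sh s f) = nrm f) ∧
  (∀ (f g : ℤ →₀ ℤ), nrm (f + g) ≤ nrm f + nrm g) ∧
  (∀ (f g : ℤ →₀ ℤ), nrm (f - g) ≤ nrm f + nrm g) ∧
  (∀ (f : ℤ →₀ ℤ), nrm (-f) = nrm f) ∧
  (∀ (f g : ℤ →₀ ℤ), sig (f + g) = sig f + sig g ∧ sig (f - g) = sig f - sig g ∧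
    sig (-f) = - sig f) ∧
  (∀ (s : ℤ) (f : ℤ →₀ ℤ), sig (sh s f) = sig f) ∧
  (∀ (f : ℤ →₀ ℤ), (sig f).natAbs ≤ nrm f) ∧
  (∀ (f g : ℤ →₀ ℤ), mu (f + g) = mu f + mu g ∧ mu (f - g) = mu f - mu g ∧ mu (-f) = - mu f) ∧
  (∀ (s : ℤ) (f : ℤ →₀ ℤ), mu (sh s f) = mu f + s * sig f) ∧
  (∀ (x : ℤ), nrm (Finsupp.single 0 x) = x.natAbs ∧ sig (Finsupp.single 0 x) = x)

/-- label sum of the syllables of generator `g` -/
def lab (ρ : ℤ → ℤ) (g : Fin 2) : List (Fin 2 × ℤ) → ℤ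
  | [] => 0
  | p :: L => (if p.1 = g then ρ p.2 else 0) + lab ρ g L

/-- the height polynomial: `∑ x T^{label sum before}` over the syllables of the other generator -/
noncomputable def hgt (ρ : ℤ → ℤ) (g : Fin 2) : List (Fin 2 × ℤ) → (ℤ →₀ ℤ)
  | [] => 0
  | p :: L => if p.1 = g then sh (ρ p.2) (hgt ρ g L) else Finsupp.single 0 p.2 + hgt ρ g L

/-- **S_HGTNC** (heights and noncrossing partitions).  Allowed hypothesis: `(h : S_FS)`.
Paper proof.  (1) `lab (L ++ L') = lab L + lab L'` and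
`hgt (L ++ L') = hgt L + sh (lab L) (hgt L')` by induction on `L`.
(2) for odd `ρ`: `lab (inv L) = - lab L` and `hgt (inv L) = - sh (- lab L) (hgt L)`: induction,
`inv (p :: L) = inv L ++ [inv p]`.
(3) Induction on `NC L B`.  Case `ins h L₁ K L₂ B₀`.  If `h = g`: `hgt (bl g K) = 0` and
`lab (bl g K) = (K.map ρ).sum = 0`, so `lab` and `hgt` of the new word are those of `L₁ ++ L₂`.
If `h ≠ g`: `lab (bl h K) = 0`, `hgt (bl h K) = single 0 K.sum`, so `lab` is unchanged and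
`hgt` changes by `sh (lab L₁) (single 0 K.sum)` of norm `|K.sum|`.
(4) `sig (hgt ρ g L)` is the sum of the exponents of the other generator, by induction. -/
def S_HGTNC : Prop :=
  (∀ (ρ : ℤ → ℤ) (g : Fin 2) (L L' : List (Fin 2 × ℤ)),
    lab ρ g (L ++ L') = lab ρ g L + lab ρ g L' ∧
    hgt ρ g (L ++ L') = hgt ρ g L + sh (lab ρ g L) (hgt ρ g L')) ∧
  (∀ (ρ : ℤ → ℤ) (g : Fin 2) (L : List (Fin 2 × ℤ)), (∀ x, ρ (-x) = - ρ x) →
    lab ρ g (inv L) = - lab ρ g L ∧ hgt ρ g (inv L) = - sh (- lab ρ g L) (hgt ρ g L)) ∧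
  (∀ (ρ : ℤ → ℤ) (g : Fin 2) (L : List (Fin 2 × ℤ)) (B : List (Fin 2 × List ℤ)), NC L B →
    (∀ b ∈ B, b.1 = g → (b.2.map ρ).sum = 0) → lab ρ g L = 0 ∧ nrm (hgt ρ g L) ≤ cost B) ∧
  (∀ (ρ : ℤ → ℤ) (g : Fin 2) (L : List (Fin 2 × ℤ)),
    sig (hgt ρ g L) = (L.map (fun p => if p.1 = g then 0 else p.2)).sum)

/-- **S_HGTS**.  Allowed hypotheses: `(h1 : S_FS) (h2 : S_HGTNC)`.
Paper proof.  Write `ℓ_k = lab (L k)`, `e_k = hgt (L k)`.  By (3) of `S_HGTNC` applied to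
`Ω = inv (L (j+k)) ++ L j ++ L k` and (1),(2): `0 = lab Ω = -ℓ_{j+k} + ℓ_j + ℓ_k`; so
`ℓ_k = k ℓ_1` for `1 ≤ k ≤ K` by induction.  And
`hgt Ω = -sh (-ℓ_{j+k}) e_{j+k} + sh (-ℓ_{j+k}) (e_j + sh ℓ_j e_k)
 = - sh (-ℓ_{j+k}) (e_{j+k} - e_j - sh ℓ_j e_k)`, whose norm is that of
`e_{j+k} - e_j - sh ℓ_j e_k`, and `≤ cost B ≤ D`. -/
def S_HGTS : Prop :=
  ∀ (D K : ℕ) (ρ : ℤ → ℤ) (g : Fin 2) (L : ℕ → List (Fin 2 × ℤ)), (∀ x, ρ (-x) = - ρ x) →
    (∀ j k : ℕ, 1 ≤ j → 1 ≤ k → j + k ≤ K → ∃ B : List (Fin 2 × List ℤ),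
      NC (inv (L (j + k)) ++ L j ++ L k) B ∧ cost B ≤ D ∧
      ∀ b ∈ B, b.1 = g → (b.2.map ρ).sum = 0) →
    ∀ j k : ℕ, 1 ≤ j → 1 ≤ k → j + k ≤ K →
      nrm (hgt ρ g (L (j + k)) - hgt ρ g (L j) - sh (j * lab ρ g (L 1)) (hgt ρ g (L k))) ≤ D

/-! ## The module lemma -/

/-- **S_GEOM** (algebra part of the module lemma).  Allowed hypothesis: `(h : S_FS)`.
Here `p = iq`, `p' = (i+1)q`, `R = 4D` and `κ = (1-T^{p'}) e_i - (1-T^p) e_{i+1}`.
Paper proof.  Write `δ_{j,k} = e_{j+k} - e_j - T^{jq} e_k`, of norm `≤ D` (`j,k ≥ 1`,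
`j+k ≤ 4D(2i+1)`).  Generally for `j, k ≥ 1` with `j + k ≤ 4D(2i+1)`:
`δ_{k,j} - δ_{j,k} = (1 - T^{kq}) e_j - (1 - T^{jq}) e_k`, so this has norm `≤ 2D`   (*).
(*) with `j = i`, `k = i+1` is the first claim (`2i+1 ≤ 4D(2i+1)`).
For the second: `e_{(r+1)i} = e_{ri} + T^{riq} e_i + δ_{ri,i}`, so by induction on `R ≥ 1`
`e_{Ri} = [R]_{T^p} e_i + err₁`, `‖err₁‖ ≤ (R-1)D` and similarly
`e_{R(i+1)} = [R]_{T^{p'}} e_{i+1} + err₂`, `‖err₂‖ ≤ (R-1)D`.
Since `(1-T^{p'}) [R]_{T^{p'}} = 1 - T^{Rp'}` (telescoping) and everything commutes,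
`[R]_{T^p}[R]_{T^{p'}} κ = (1-T^{Rp'}) [R]_{T^p} e_i - (1-T^{Rp}) [R]_{T^{p'}} e_{i+1}
 = { (1-T^{Rp'}) e_{Ri} - (1-T^{Rp}) e_{R(i+1)} } - (1-T^{Rp'}) err₁ + (1-T^{Rp}) err₂`,
and the brace has norm `≤ 2D` by (*) with `j = Ri`, `k = R(i+1)` (`j+k = R(2i+1) = 4D(2i+1)`).
Total: `2D + 4(R-1)D = 16D² - 2D < 16 D² = R²`. -/
def S_GEOM : Prop :=
  ∀ (D i : ℕ) (q : ℤ) (e : ℕ → (ℤ →₀ ℤ)), 1 ≤ D → 1 ≤ i →
    (∀ j k : ℕ, 1 ≤ j → 1 ≤ k → j + k ≤ 4 * D * (2 * i + 1) →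
      nrm (e (j + k) - e j - sh (j * q) (e k)) ≤ D) →
    nrm ((e i - sh ((i + 1) * q) (e i)) - (e (i + 1) - sh (i * q) (e (i + 1)))) ≤ 2 * D ∧
    nrm (gs (4 * D) (i * q) (gs (4 * D) ((i + 1) * q)
      ((e i - sh ((i + 1) * q) (e i)) - (e (i + 1) - sh (i * q) (e (i + 1)))))) < (4 * D) ^ 2

/-- **S_CLUSTER** (cluster part of the module lemma).  Allowed hypothesis: `(h : S_FS)`.
Statement: if `‖κ‖ ≤ S` and `‖[R]_{T^p}[R]_{T^{p'}} κ‖ < R²` then
`μ(κ) = p X + p' Y` with `|Y| ≤ S·S·R`.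
Paper proof.  Strong induction on the size of the support of `κ` proving `|Y| ≤ ‖κ‖·S·R`
(with `S` fixed, `‖κ‖ ≤ S`).  `κ = 0`: `X = Y = 0`.
Otherwise take `z₀ ∈ supp κ`, let `z ~ z'` iff
`z - z' = x p + y p'` with integers `|x|,|y| ≤ R - 1`, and let `C ⊆ supp κ` be the connected
component of `z₀` in the graph `~` on `supp κ`.  Write `κ = κ_C + κ'` with `κ_C = κ|_C`
(`Finsupp.filter`); `‖κ‖ = ‖κ_C‖ + ‖κ'‖`.
The supports of `[R][R]κ_C` and `[R][R]κ'` are disjoint: they are contained in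
`{z + xp + yp' : z ∈ C, 0 ≤ x,y ≤ R-1}` and `{z' + xp + yp' : z' ∈ supp κ∖C, 0 ≤ x,y ≤ R-1}`, and a
common point would give `z ~ z'`.  Hence `‖[R][R]κ_C‖ + ‖[R][R]κ'‖ = ‖[R][R]κ‖ < R²`.
As `R²|σ(κ_C)| = |σ([R][R]κ_C)| ≤ ‖[R][R]κ_C‖ < R²` we get `σ(κ_C) = 0`.
Every `z ∈ C` is connected to `z₀` by a path in `C` of length `≤ |C| - 1 ≤ ‖κ‖ ≤ S`
(a path without repeated vertices; `SimpleGraph.Walk.IsPath.length_lt`), so
`z = z₀ + x_z p + y_z p'` with `|x_z|, |y_z| ≤ S·R`.  Then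
`μ(κ_C) = ∑_{z∈C} κ(z) z = z₀ σ(κ_C) + ∑ κ(z)(x_z p + y_z p') = p X_C + p' Y_C`,
`|Y_C| ≤ ‖κ_C‖·S·R`.  Apply the induction hypothesis to `κ'` and add. -/
def S_CLUSTER : Prop :=
  ∀ (S R : ℕ) (p p' : ℤ) (κ : ℤ →₀ ℤ), 1 ≤ R → nrm κ ≤ S →
    nrm (gs R p (gs R p' κ)) < R ^ 2 →
    ∃ X Y : ℤ, mu κ = p * X + p' * Y ∧ Y.natAbs ≤ S * S * R

/-- **S_MODULE** (module lemma).  Allowed hypotheses:
`(h1 : S_FS) (h2 : S_GEOM) (h3 : S_CLUSTER)`.
Paper proof.  `κ` as in `S_GEOM`.  `μ(κ) = -(i+1)q σ(e_i) + i q σ(e_{i+1})` by `S_FS`.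
`S_CLUSTER` with `S = 2D`, `R = 4D`, `p = iq`, `p' = (i+1)q`: `μ(κ) = iq X + (i+1)q Y`,
`|Y| ≤ 2D·2D·4D = 16D³`.  Cancel `q ≠ 0`: `(i+1)(σ(e_i) + Y) = i(σ(e_{i+1}) - X)`, so
`i ∣ (i+1)(σ(e_i)+Y)`, and since `i` and `i+1` are coprime `i ∣ σ(e_i) + Y`. -/
def S_MODULE : Prop :=
  ∀ (D i : ℕ) (q : ℤ) (e : ℕ → (ℤ →₀ ℤ)), 1 ≤ D → 1 ≤ i → q ≠ 0 →
    (∀ j k : ℕ, 1 ≤ j → 1 ≤ k → j + k ≤ 4 * D * (2 * i + 1) →
      nrm (e (j + k) - e j - sh (j * q) (e k)) ≤ D) →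
    ∃ E : ℤ, (sig (e i) - i * E).natAbs ≤ 16 * D ^ 3

/-- **S_MAIN**.  Allowed hypotheses: `(h1 : S_SHORT) (h2 : S_SPECIAL) (h3 : S_WORDS)
(h4 : S_LABELS) (h5 : S_HGTNC) (h6 : S_HGTS) (h7 : S_MODULE)`.
Paper proof.  `K := 4D(2i+1)`, `T := K²(2D+1)(D+3)`, `n₀ := 2D(2(D+3)+1)^T + 1`.
Let `L k` be an alternating word with nonzero exponents and value `W k` (`S_WORDS` (4)), except
`L 1 := [(0,m),(1,n)]` (this is such a word for `W 1`).  For `j,k ≥ 1` with `j+k ≤ K` put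
`Ω = inv (L (j+k)) ++ L j ++ L k`; `val Ω = (W (j+k))⁻¹ * (W j * W k)`, so by `S_SHORT` there is
`B = B_{j,k}` with `NC Ω B`, `cost B ≤ D`; `adj Ω ≤ 2`, exponents of `Ω` nonzero, so `S_SPECIAL`
gives `V_{j,k}`.  Let `V` be the union of all `V_{j,k}` over `j,k ∈ [1,K]` with `j+k ≤ K`; `V.card ≤ T`.
Let `g' ≠ g` be the other generator
(the label generator) and `ν` its exponent in `L 1` (`m` or `n`, `≥ n₀`).
`S_LABELS` gives `q ≥ 1`, `ρ`.  Each block `b ∈ B_{j,k}` has `(b.2.map ρ).sum = 0`: clear for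
`[]`, for `[x,-x]` as `ρ` is odd, and otherwise by the last property of `S_LABELS`.
`lab ρ g' (L 1) = ρ ν = q` (the other syllable does not count).
`S_HGTS` (with `g'`), then `S_MODULE` with `e k = hgt ρ g' (L k)` give `E` with
`|σ(e_i) - iE| ≤ 16D³`, and `σ(e_i) = ex g (W i)` by (4) of `S_HGTNC` and (5) of `S_WORDS`
(the generators other than `g'` is just `g`). -/
def S_MAIN : Prop :=
  ∀ (D i : ℕ), 1 ≤ D → 1 ≤ i → ∃ n₀ : ℕ, ∀ m n : ℕ, n₀ ≤ m → n₀ ≤ n →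
    ∀ W : ℕ → FreeGroup (Fin 2), W 1 = FreeGroup.of 0 ^ m * FreeGroup.of 1 ^ n →
      (∀ j k : ℕ, 1 ≤ j → 1 ≤ k → Short D ((W (j + k))⁻¹ * (W j * W k))) →
      ∀ g : Fin 2, ∃ E : ℤ, (ex g (W i) - i * E).natAbs ≤ 16 * D ^ 3

/-- **S_FINAL** (the frozen statement `S03163`).
Allowed hypotheses: `(h1 : S_WORDS) (h2 : S_MAIN)`.
Paper proof.  Suppose `Ψ, N` exist; `D := max N 1`, `C := 16D³`.  `φ w = -ex 0 w + β ex 1 w`
(both are homs agreeing on the generators).  For `n ≥ 1` put `m = ⌊nβ⌋ ≥ n`,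
`u = (of 0)^m (of 1)^n`; `φ u = nβ - ⌊nβ⌋ ∈ [0,1)`, so `u ∈ K`; `W k := Ψ ((of u)^k)`.  Then
`W 1 = u` and `Short D ((W (j+k))⁻¹ (W j W k))` for all `j,k`.
Let `i ≥ 1` be arbitrary, `n ≥ n₀(D,i)`; get `E_0, E_1` with `|ex g (W i) - i E_g| ≤ C`.
Also `|ex 1 (W i) - i n| ≤ i D` (induction on `k`: `|ex 1 (W k) - k n| ≤ k D` for `k ≥ 1`,
as `ex 1 (W (k+1)) = ex 1 (W k) + n - ex 1 ((W (k+1))⁻¹ W k W 1)`).
So `|i (E_1 - n)| ≤ C + iD`, `|E_1 - n| ≤ C + D`.
And `0 ≤ -ex 0 (W i) + β ex 1 (W i) < 1` so `|i(β E_1 - E_0)| ≤ 1 + C(1+β)`.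
Do this for `n` and for `n' = n + 2(C+D) + 1`: `h := E_1' - E_1 ∈ [1, 4(C+D)+1]` and
`|hβ - (E_0' - E_0)| ≤ 2(1 + C(1+β))/i`.  As `β` is irrational,
`ε := min_{1 ≤ h ≤ 4(C+D)+1} dist(hβ, ℤ) > 0`, and choosing `i > 2(1+C(1+β))/ε` is a
contradiction. -/
def S_FINAL : Prop :=
    ∀ β : ℝ, 1 < β → Irrational β →
    ∀ φ : FreeGroup (Fin 2) →* Multiplicative ℝ,
      φ (FreeGroup.of (0 : Fin 2)) = Multiplicative.ofAdd (-1 : ℝ) →
      φ (FreeGroup.of (1 : Fin 2)) = Multiplicative.ofAdd β →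
    ∀ K : Set (FreeGroup (Fin 2)),
      K = {w | 0 ≤ Multiplicative.toAdd (φ w) ∧ Multiplicative.toAdd (φ w) < 1} →
    ¬ ∃ Ψ : FreeGroup K → FreeGroup (Fin 2), ∃ N : ℕ,
      (∀ w, Ψ w ∈ K) ∧
      (∀ k : K, Ψ (FreeGroup.of k) = (k : FreeGroup (Fin 2))) ∧
      ∀ w₁ w₂ : FreeGroup K, ∃ L : List (FreeGroup (Fin 2)), L.length ≤ N ∧
        (∀ x ∈ L, ∃ g : FreeGroup (Fin 2), ∃ i : Fin 2,
          x = g * FreeGroup.of i * g⁻¹ ∨ x = g * (FreeGroup.of i)⁻¹ * g⁻¹) ∧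
        L.prod = (Ψ (w₁ * w₂))⁻¹ * (Ψ w₁ * Ψ w₂)

end Pool.Agent.CK
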